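import Pool.Agent.Y850.DL.Main

set_option autoImplicit false

/-!
# Every nonzero shift of the directed landscape is singular to it

Q1 asks whether the law of the `h`-shift of the directed landscape is absolutely continuous with
respect to the law of the directed landscape, for all smooth compactly supported `h`. The starting
result `ShiftSingular` shows mutual singularity when `h` is negative somewhere. We complete the
picture: the laws are mutually singular for EVERY bounded continuous `h` other than `0` (no
smoothness, no compact support, any sign), so that absolute continuity holds for `h = 0` only.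

Definitions: `IsDirectedLandscape`, `len` (length of a path), `shiftVal` (the `h`-shift, a supremum
over all continuous paths) are those of the starting library `Pool/Agent/W541/DL/Defs.lean`;
`MutSing` (mutual singularity, in the same form as in `ShiftSingular`) and `PathSup` (the value of
the landscape at every point is the supremum of the lengths of the continuous paths, the identity
recorded in the setting of the problem) are in `Pool/Agent/Y850/DL/Main.lean`.

New part of the proof: for `h` positive somewhere an almost geodesic path between two close points
of a box on which `h ≥ c` stays in a slightly larger box (otherwise it would pass through a point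
for which the landscape is much shorter), so the shifted value of most small cells is at least the
old value plus `c` times the height of the cell, and the sum over all small cells separates the
laws from the other side.
-/

open MeasureTheory Pool.Agent.W541.DL Pool.Agent.Y850.DL

/-- (1) For every continuous `h`, bounded above, which is negative somewhere, the laws of the
directed landscape and of its `h`-shift are mutually singular. (2) Let `L` be a directed landscape
(for which, as in the setting of the problem, `L(x,s;y,t)` is the supremum of the path lengths).
Then for every bounded continuous `h` the laws of `L` and of its `h`-shift are mutually singular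
unless `h = 0`, and the `0`-shift of `L` is `L` almost surely. (3) In particular for all smooth
compactly supported `h` that do not vanish identically the laws are mutually singular. -/
theorem Pool.Agent.Results.MP_cd6101_pr.EveryShiftSingular.result :
    (∀ h : ℝ × ℝ → ℝ, Continuous h → (∃ H : ℝ, ∀ q, h q ≤ H) → (∃ q, h q < 0) →
      ∀ (Ω : Type) [MeasurableSpace Ω] (P : Measure Ω) (L : Ω → C(R4, ℝ)),
        IsDirectedLandscape P L → MutSing h P L) ∧
    (∀ (Ω : Type) [MeasurableSpace Ω] (P : Measure Ω) (L : Ω → C(R4, ℝ)),
      IsDirectedLandscape P L → (∀ᵐ ω ∂P, PathSup (L ω)) →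
      (∀ h : ℝ × ℝ → ℝ, Continuous h → (∃ H : ℝ, ∀ q, |h q| ≤ H) → h ≠ 0 → MutSing h P L) ∧
      (∀ᵐ ω ∂P, shiftVal 0 (L ω) = fun p => ((L ω p : ℝ) : EReal)) ∧
      (∀ h : ℝ × ℝ → ℝ, ContDiff ℝ (⊤ : ℕ∞) h → HasCompactSupport h → h ≠ 0 →
        MutSing h P L)) := by
  have key : ∀ (Ω : Type) [MeasurableSpace Ω] (P : Measure Ω) (L : Ω → C(R4, ℝ)),
      IsDirectedLandscape P L → (∀ᵐ ω ∂P, PathSup (L ω)) →
      ∀ h : ℝ × ℝ → ℝ, Continuous h → (∃ H : ℝ, ∀ q, |h q| ≤ H) → h ≠ 0 → MutSing h P L := by
    intro Ω _ P L hL hgeo h h1 ⟨H, hH⟩ h3
    obtain ⟨q, hq⟩ : ∃ q, h q ≠ 0 := by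
      by_contra hcon
      push Not at hcon
      exact h3 (funext hcon)
    rcases lt_or_gt_of_ne hq with h4 | h4
    · exact neg_case hL h h1 ⟨H, fun q => (abs_le.1 (hH q)).2⟩ q h4
    · exact pos_case hL hgeo h h1 ⟨H, fun q => (abs_le.1 (hH q)).1⟩ q h4
  refine ⟨fun h h1 h2 ⟨q, hq⟩ Ω _ P L hL => neg_case hL h h1 h2 q hq,
    fun Ω _ P L hL hgeo => ⟨key Ω P L hL hgeo, ?_, fun h h1 h2 h3 => ?_⟩⟩
  · filter_upwards [hgeo] with ω hω
    funext p
    exact (hω p).symm
  · obtain ⟨H, hH⟩ := h2.exists_bound_of_continuous h1.continuous
    exact key Ω P L hL hgeo h h1.continuous ⟨H, fun q => by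
      rw [← Real.norm_eq_abs]; exact hH q⟩ h3
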